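import Mathlib
import Pool.Graph.R_pool_sql_team_ae5b0c61.H68.CoxSep

/-!
# A subgroup of asymptotic dimension one that coarsely separates an unsplittable group

There is a finitely generated group `G` of asymptotic dimension at least three and a *subgroup*
`X` of `G` of asymptotic dimension at most one which coarsely separates the Cayley graph, at every
radius, while
`G` splits over no subgroup at all.
-/

set_option autoImplicit false

namespace Pool.Agent.Results.MP_ac3292_al.SubgroupSeparates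

/-- the Cayley graph of a group with respect to a finite set `S` -/
def cayley {G : Type} [Group G] (S : Finset G) : SimpleGraph G :=
  SimpleGraph.fromRel (fun g h : G => g⁻¹ * h ∈ S)

/-- `asdim Y ≤ k` for a set `Y` of vertices of a graph, with the restricted path metric: for every
`R` there is a cover of `Y` by subsets of uniformly bounded diameter such that every ball of
radius `R` of `Y` meets at most `k + 1` of them -/
def AsdimLE {V : Type} (Γ : SimpleGraph V) (Y : Set V) (k : ℕ) : Prop :=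
  ∀ R : ℕ, ∃ 𝒰 : Set (Set V), (∀ U ∈ 𝒰, U ⊆ Y) ∧ Y ⊆ ⋃₀ 𝒰 ∧
    (∃ D : ℕ, ∀ U ∈ 𝒰, ∀ a ∈ U, ∀ b ∈ U, Γ.dist a b ≤ D) ∧
    ∀ y ∈ Y, {U ∈ 𝒰 | ∃ z ∈ U, Γ.dist y z ≤ R}.encard ≤ (k + 1 : ℕ∞)

/-- the complement of the closed `r`-neighbourhood of `X` has two different connected components,
each of which contains vertices at arbitrarily large distance from `X`; the set `X` coarsely
separates the graph if this holds for some `r > 0` -/
def SeparatesAt {V : Type} (Γ : SimpleGraph V) (X : Set V) (r : ℕ) : Prop :=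
  ∃ C₁ C₂ : (Γ.induce {v : V | ∀ x ∈ X, r < Γ.dist v x}).ConnectedComponent,
    C₁ ≠ C₂ ∧
      (∀ D : ℕ, ∃ v ∈ C₁.supp, ∀ x ∈ X, D < Γ.dist v.1 x) ∧
      (∀ D : ℕ, ∃ v ∈ C₂.supp, ∀ x ∈ X, D < Γ.dist v.1 x)

/-- `G` is a nontrivial amalgamated free product over its subgroup `H`: there are injective
non-surjective maps of `H` to two groups and an isomorphism of the amalgamated product with `G`
that restricts to the inclusion on `H` -/
def SplitsAsAmalgam {G : Type} [Group G] (H : Subgroup G) : Prop :=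
  ∃ (P : Bool → Type) (_ : ∀ i, Group (P i)) (φ : ∀ i, H →* P i),
    (∀ i, Function.Injective (φ i)) ∧ (∀ i, ¬ Function.Surjective (φ i)) ∧
    ∃ e : Monoid.PushoutI φ ≃* G, ∀ h : H, e (Monoid.PushoutI.base φ h) = h

/-- `G` is an HNN extension over its subgroup `H`: the associated subgroup `C` of the base group
is carried to `H` by an isomorphism of the HNN extension with `G` -/
def SplitsAsHNN {G : Type} [Group G] (H : Subgroup G) : Prop :=
  ∃ (B : Type) (_ : Group B) (C D : Subgroup B) (φ : C ≃* D) (e : HNNExtension B C D φ ≃* G),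
    H = (C.map HNNExtension.of).map e.toMonoidHom

/-- `G` splits over `H` -/
def SplitsOver {G : Type} [Group G] (H : Subgroup G) : Prop :=
  SplitsAsAmalgam H ∨ SplitsAsHNN H

open Pool.Agent.H68 Pool.Agent.H68.Cay

/-- a subgroup missing the powers of `τ` and containing an element `t` that changes the side
separates deeply at every radius -/
theorem deep_all {G : Type} [Group G] {S : Finset G} (hS : Subgroup.closure (S : Set G) = ⊤)
    (H : Subgroup G) (τ : G) (hτ : τ ∈ S)
    (hn : ∀ n : ℤ, τ ^ n ∈ H → n = 0) (side : G → ZMod 2)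
    (hside : ∀ g h : G, g ∉ H → h ∉ H → (cay S).Adj g h → side g = side h)
    (t : G) (ht : t ∈ H) (hts : ∀ g, side (t * g) ≠ side g) (r : ℕ) :
    SeparatesAt (cay S) (H : Set G) r := by
  have hτ1 : τ ≠ 1 := fun h => by simpa using hn 1 (by simp [h])
  have hdeep : ∀ a ∈ H, ∀ D : ℕ, ∃ N : ℕ, ∀ n ≥ N, ∀ x ∈ (H : Set G),
      D < (cay S).dist (a * τ ^ (n + 1)) x := by
    intro a ha D
    by_contra hc
    push Not at hc
    have hfin : Finite {g | (cay S).dist 1 g ≤ D} := ball_fin hS D
    obtain ⟨φ, hφ, hφ2⟩ : ∃ φ : ℕ → ℕ, StrictMono φ ∧ ∀ n, ∃ x ∈ (H : Set G),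
        (cay S).dist (a * τ ^ (φ n + 1)) x ≤ D :=
      Filter.extraction_of_frequently_atTop (Filter.frequently_atTop.2 hc)
    choose x hx hd using hφ2
    obtain ⟨n, m, hnm, h⟩ := Finite.exists_ne_map_eq_of_infinite
      (fun n : ℕ => (⟨(a * τ ^ (φ n + 1))⁻¹ * x n, by
        have := hd n; rwa [dist_eq hS] at this⟩ : {g | (cay S).dist 1 g ≤ D}))
    simp only [Subtype.mk.injEq] at h
    have h2 : τ ^ ((φ n : ℤ) - φ m) = a⁻¹ * x n * (x m)⁻¹ * a := by
      have : x n = (a * τ ^ (φ n + 1)) * ((a * τ ^ (φ m + 1))⁻¹ * x m) := by rw [← h]; group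
      rw [this]; group
    have h3 := hn _ (h2 ▸ H.mul_mem (H.mul_mem (H.mul_mem (H.inv_mem ha) (hx n))
      (H.inv_mem (hx m))) ha)
    exact hnm (hφ.injective (by omega))
  have hΩ0 : ∀ v, (∀ x ∈ (H : Set G), r < (cay S).dist v x) → v ∉ H := by
    intro v hv h
    simpa using hv v h
  have key : ∀ u v : {v : G | ∀ x ∈ (H : Set G), r < (cay S).dist v x},
      ((cay S).induce {v : G | ∀ x ∈ (H : Set G), r < (cay S).dist v x}).Reachable u v →
        side u = side v := by
    rintro u v ⟨p⟩
    induction p with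
    | nil => rfl
    | @cons u v w e _ ih => exact (hside _ _ (hΩ0 _ u.2) (hΩ0 _ v.2) e).trans ih
  have hray : ∀ a ∈ H, ∃ N, ∃ hm : ∀ n ≥ N, a * τ ^ (n + 1) ∈
      {v : G | ∀ x ∈ (H : Set G), r < (cay S).dist v x}, ∀ n (hn : n ≥ N),
      ((cay S).induce _).connectedComponentMk ⟨_, hm n hn⟩ =
      ((cay S).induce _).connectedComponentMk ⟨_, hm N le_rfl⟩ := by
    intro a ha
    obtain ⟨N, hN⟩ := hdeep a ha r
    refine ⟨N, hN, fun n hnN => ?_⟩
    induction n, hnN using Nat.le_induction with
    | base => rfl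
    | succ n hnN ih =>
      rw [← ih]
      apply SimpleGraph.ConnectedComponent.connectedComponentMk_eq_of_adj
      show (cay S).Adj (a * τ ^ (n + 1 + 1)) (a * τ ^ (n + 1))
      rw [adj_iff]
      refine ⟨?_, Or.inr ?_⟩
      · intro h
        rw [pow_succ τ (n + 1), mul_right_inj, mul_eq_left] at h
        exact hτ1 h
      · have : (a * τ ^ (n + 1))⁻¹ * (a * τ ^ (n + 1 + 1)) = τ := by group
        simpa only [this] using hτ
  have hdr : ∀ a ∈ H, ∃ N, ∃ hm : a * τ ^ (N + 1) ∈
      {v : G | ∀ x ∈ (H : Set G), r < (cay S).dist v x}, ∀ D : ℕ,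
      ∃ v ∈ (((cay S).induce _).connectedComponentMk ⟨_, hm⟩).supp, ∀ x ∈ (H : Set G),
        D < (cay S).dist v.1 x := by
    intro a ha
    obtain ⟨N, hm, h⟩ := hray a ha
    refine ⟨N, hm N le_rfl, fun D => ?_⟩
    obtain ⟨M, hM⟩ := hdeep a ha D
    exact ⟨⟨_, hm (max N M) (le_max_left _ _)⟩, h _ (le_max_left _ _),
      hM _ (le_max_right _ _)⟩
  have hnm : ∀ n : ℕ, τ ^ (n + 1) ∉ H := by
    intro n h
    have := hn ((n + 1 : ℕ) : ℤ) (by rwa [zpow_natCast])
    omega
  have hsd : ∀ n : ℕ, side (τ ^ (n + 1)) = side (τ ^ (0 + 1)) := by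
    intro n
    induction n with
    | zero => rfl
    | succ n ih =>
      rw [← ih]
      refine (hside _ _ (hnm n) (hnm (n + 1)) ?_).symm
      rw [adj_iff]
      refine ⟨?_, Or.inl ?_⟩
      · intro h
        rw [pow_succ τ (n + 1), left_eq_mul] at h
        exact hτ1 h
      · have : (τ ^ (n + 1))⁻¹ * (τ ^ (n + 1 + 1)) = τ := by group
        simpa only [this] using hτ
  obtain ⟨N1, hm1, h1⟩ := hdr 1 H.one_mem
  obtain ⟨N2, hm2, h2⟩ := hdr t ht
  refine ⟨_, _, ?_, h1, h2⟩
  intro h
  have h3 := key _ _ (SimpleGraph.ConnectedComponent.exact h)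
  simp only [one_mul] at h3
  rw [hsd, ← hsd N2] at h3
  exact hts _ h3.symm

open Pool.Agent.H68.CoxSep

/-- **There are a finitely generated group `G` with `asdim G ≥ 3` and a subgroup `X` of `G` with
`asdim X ≤ 1` which coarsely separates the Cayley graph of `G` (the complement of every
neighbourhood of `X` has two deep components), while `G` splits over no subgroup whatsoever.**  Moreover `G` is generated by involutions all of whose pairwise products have finite
order (so that, by Serre's lemma, `G` has property (FA)), and `X` centralises one of them. -/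
theorem result : ∃ (G : Type) (_ : Group G) (S : Finset G) (X : Subgroup G),
    Subgroup.closure (S : Set G) = ⊤ ∧
    ¬ AsdimLE (cayley S) Set.univ 2 ∧
    AsdimLE (cayley S) (X : Set G) 1 ∧
    (∀ r : ℕ, SeparatesAt (cayley S) (X : Set G) r) ∧
    (∀ H : Subgroup G, ¬ SplitsOver H) ∧
    ∃ s : Option (Fin 4) → G, Subgroup.closure (Set.range s) = ⊤ ∧ (∀ i, s i * s i = 1) ∧
      (∀ i j, IsOfFinOrder (s i * s j)) ∧ s none ∈ X ∧ ∀ x ∈ X, Commute x (s none) := by
  refine ⟨G, inferInstance, S, H, S_gen, Cay.not_asLE_two S_gen ψ ψ_add ψ_inj,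
    Cay.asLE_Hs S_gen rr tt rt pp, ?_, ?_, ?_⟩
  · exact deep_all S_gen H τ0 ((mem_S _).2 (Or.inl rfl)) τ_pow side side_adj t t_mem side_t
  · rintro K (⟨P, _, φ, hinj, hsurj, e, -⟩ | ⟨B, _, C, D, φ, e, -⟩)
    · obtain ⟨b, -, hb⟩ := Amalg.serre_pushout φ hinj e PresentedGroup.of fin1 fin2
        (PresentedGroup.closure_range_of rels)
      exact hsurj (!b) hb
    · exact Amalg.no_hnn e PresentedGroup.of fin1 (PresentedGroup.closure_range_of rels)
  · refine ⟨PresentedGroup.of, PresentedGroup.closure_range_of rels, ?_, fin2, t_mem, ?_⟩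
    · rintro (_ | i)
      · exact tt
      · exact ss i
    · rintro x ⟨w, -, e, he, rfl⟩
      refine Commute.mul_left (Cay.ev_comm rt w) ?_
      rcases he with rfl | rfl
      · exact Commute.one_left _
      · exact Commute.refl _

end Pool.Agent.Results.MP_ac3292_al.SubgroupSeparates
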